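import Mathlib

/-!
# A random walk in a field of unit arrows does not homogenize in the pointwise sense

Since `p_ω(n+1, 0) = ∑_y p_ω(n, y) p(y, 0, ω)` over the neighbours `y` of `0`, the kernel at time
`n + 1` sees the arrows of the neighbours of `0`. If all the ratios `p_ω / m_1` were close to `1` with
probability close to `1`, then `p_ω(n+1, 0)` would be close to
`(1 - (2d-1)ε) ∑_y m_1(n, y)` when all neighbours are directed to `0` and close to
`ε ∑_y m_1(n, y)` when none of them is, and also close to `m_1(n+1, 0)` in both cases.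
-/

set_option autoImplicit false

open MeasureTheory ProbabilityTheory Filter Topology

namespace Pool.Agent.Results.MP_31ab2b_pr.LocalFluctuations

/-- The lattice `ℤ^d`. -/
abbrev Site (d : ℕ) := Fin d → ℤ

/-- The unit vector `e_i` for `(i, true)` and `-e_i` for `(i, false)`. -/
def vec {d : ℕ} (a : Fin d × Bool) : Site d := Pi.single a.1 (if a.2 then 1 else -1)

/-- An environment: at every site a unit arrow `n_0(x, ω) = vec (ω x)`. -/
abbrev Env (d : ℕ) := Site d → Fin d × Bool

/-- The law `μ` of the environment: independent arrows, uniform on the `2d` unit arrows. -/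
noncomputable def envLaw (d : ℕ) : Measure (Env d) :=
  Measure.infinitePi fun _ => uniformOn (Set.univ : Set (Fin d × Bool))

/-- The transition probability `p(x, z, ω)`. -/
noncomputable def trans {d : ℕ} (ε : ℝ) (ω : Env d) (x z : Site d) : ℝ :=
  if x - z = vec (ω x) then 1 - (2 * (d : ℝ) - 1) * ε
  else if ∑ i, (x i - z i) ^ 2 = 1 then ε else 0

/-- The quenched law `p_ω(n, x)` at time `n` of the chain started at `0`. -/
noncomputable def law {d : ℕ} (ε : ℝ) (ω : Env d) : ℕ → Site d → ℝ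
  | 0, x => if x = 0 then 1 else 0
  | n + 1, x => ∑' y, law ε ω n y * trans ε ω y x

/-- The averaged kernel `m_1(n, x)`. -/
noncomputable def avg {d : ℕ} (ε : ℝ) (n : ℕ) (x : Site d) : ℝ := ∫ ω, law ε ω n x ∂(envLaw d)

/-- Condition (i): under the averaged law `X_n / √n` converges in law to a centred Gaussian vector
with covariance `σ² I_d`, for some `σ² > 0`. -/
def GaussianLimit (d : ℕ) (ε : ℝ) : Prop :=
  ∃ s : NNReal, 0 < s ∧ ∀ f : BoundedContinuousFunction (Fin d → ℝ) ℝ,
    Tendsto (fun n : ℕ => ∑' x : Site d, avg ε n x * f (fun i => (x i : ℝ) / Real.sqrt n)) atTop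
      (𝓝 (∫ y, f y ∂(Measure.pi fun _ : Fin d => gaussianReal 0 s)))

/-- Condition (ii): for all `C, δ > 0` the supremum of `μ(|p_ω(n,x) / m_1(n,x) - 1| > δ)` over the
`x` with `|x| ≤ C √n` and `m_1(n,x) > 0` tends to `0`. -/
def RatioLimit (d : ℕ) (ε : ℝ) : Prop :=
  ∀ C δ : ℝ, 0 < C → 0 < δ →
    Tendsto (fun n : ℕ => ⨆ x ∈ {x : Site d | Real.sqrt (∑ i, (x i : ℝ) ^ 2) ≤ C * Real.sqrt n ∧
        0 < avg ε n x},
      envLaw d {ω | δ < |law ε ω n x / avg ε n x - 1|}) atTop (𝓝 0)

/-- The model homogenizes: conditions (i) and (ii). -/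
def Homogenizes (d : ℕ) (ε : ℝ) : Prop := GaussianLimit d ε ∧ RatioLimit d ε

section basics

variable {d : ℕ}

theorem vec_injective : Function.Injective (vec : Fin d × Bool → Site d) := by
  rintro ⟨i, b⟩ ⟨j, c⟩ h
  have h1 : i = j := by
    by_contra hij
    have := congrFun h i
    simp only [vec, Pi.single_eq_same] at this
    rw [Pi.single_eq_of_ne hij] at this
    cases b <;> simp at this
  subst h1
  have := congrFun h i
  simp only [vec, Pi.single_eq_same] at this
  cases b <;> cases c <;> simp_all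

theorem exists_vec (v : Site d) (h : ∑ i, (v i) ^ 2 = 1) : ∃ a, v = vec a := by
  have hne : ∃ i, v i ≠ 0 := by
    by_contra hcon
    push Not at hcon
    simp [hcon] at h
  obtain ⟨i, hi⟩ := hne
  have h1 : 1 ≤ (v i) ^ 2 := by
    have := Int.one_le_abs hi
    nlinarith [sq_abs (v i)]
  have h2 := Finset.add_sum_erase Finset.univ (fun i => (v i) ^ 2) (Finset.mem_univ i)
  have h3 : 0 ≤ ∑ j ∈ Finset.univ.erase i, (v j) ^ 2 := Finset.sum_nonneg fun j _ => sq_nonneg _
  have h4 : ∑ j ∈ Finset.univ.erase i, (v j) ^ 2 = 0 := by linarith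
  have h5 : (v i) ^ 2 = 1 := by linarith
  have h6 : ∀ j, j ≠ i → v j = 0 := by
    intro j hj
    have := (Finset.sum_eq_zero_iff_of_nonneg (fun j _ => sq_nonneg (v j))).1 h4 j
      (Finset.mem_erase.2 ⟨hj, Finset.mem_univ _⟩)
    exact pow_eq_zero_iff (two_ne_zero) |>.1 this
  have h7 : v i = 1 ∨ v i = -1 := by
    have h8 : (v i - 1) * (v i + 1) = 0 := by linear_combination h5
    rcases mul_eq_zero.1 h8 with h9 | h9
    · left; omega
    · right; omega
  rcases h7 with h7 | h7
  · refine ⟨(i, true), ?_⟩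
    funext j
    by_cases hj : j = i
    · subst hj; simp [vec, h7]
    · simp [vec, Pi.single_eq_of_ne hj, h6 j hj]
  · refine ⟨(i, false), ?_⟩
    funext j
    by_cases hj : j = i
    · subst hj; simp [vec, h7]
    · simp [vec, Pi.single_eq_of_ne hj, h6 j hj]

theorem sq_vec (a : Fin d × Bool) : ∑ i, (vec a i) ^ 2 = 1 := by
  rw [Finset.sum_eq_single a.1]
  · simp only [vec, Pi.single_eq_same]
    cases a.2 <;> simp
  · intro j _ hj
    simp [vec, Pi.single_eq_of_ne hj]
  · simp

end basics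


section kernel

variable {d : ℕ} {ε : ℝ}

theorem trans_eq_zero {ω : Env d} {x y : Site d} (h : ∀ a, y ≠ x + vec a) :
    trans ε ω y x = 0 := by
  unfold trans
  rw [if_neg, if_neg]
  · intro h1
    obtain ⟨a, ha⟩ := exists_vec (y - x) (by simpa using h1)
    exact h a (by rw [← ha]; abel)
  · intro h1
    exact h (ω y) (by rw [← h1]; abel)

theorem trans_vec (ω : Env d) (x : Site d) (a : Fin d × Bool) :
    trans ε ω (x + vec a) x = if ω (x + vec a) = a then 1 - (2 * (d : ℝ) - 1) * ε else ε := by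
  unfold trans
  have e : x + vec a - x = vec a := by abel
  rw [e]
  by_cases h : ω (x + vec a) = a
  · rw [if_pos (by rw [h]), if_pos h]
  · rw [if_neg (fun h' => h (vec_injective h').symm), if_neg h, if_pos]
    have := sq_vec a
    rw [← this]
    refine Finset.sum_congr rfl fun i _ => ?_
    rw [Pi.add_apply]
    ring

theorem law_succ (ω : Env d) (n : ℕ) (x : Site d) :
    law ε ω (n + 1) x = ∑ a, law ε ω n (x + vec a) * trans ε ω (x + vec a) x := by
  classical
  rw [law, tsum_eq_sum (s := Finset.univ.image fun a => x + vec a)]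
  · rw [Finset.sum_image]
    intro a _ b _ hab
    exact vec_injective (add_left_cancel hab)
  · intro y hy
    rw [trans_eq_zero, mul_zero]
    intro a ha
    exact hy (Finset.mem_image.2 ⟨a, Finset.mem_univ _, ha.symm⟩)

theorem trans_measurable (x z : Site d) : Measurable fun ω : Env d => trans ε ω x z := by
  have h : Measurable fun b : Fin d × Bool =>
      (if x - z = vec b then 1 - (2 * (d : ℝ) - 1) * ε
        else if ∑ i, (x i - z i) ^ 2 = 1 then ε else 0 : ℝ) := Measurable.of_discrete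
  exact h.comp (measurable_pi_apply x)

theorem law_measurable (n : ℕ) (x : Site d) : Measurable fun ω : Env d => law ε ω n x := by
  induction n generalizing x with
  | zero => exact measurable_const
  | succ n ih =>
    simp only [law_succ]
    exact Finset.measurable_sum _ fun a _ => (ih _).mul (trans_measurable _ _)

variable (hε : 0 < ε) (hd : (2 * (d : ℝ)) * ε < 1)

include hε hd

theorem trans_nonneg (ω : Env d) (x z : Site d) : 0 ≤ trans ε ω x z := by
  unfold trans
  split_ifs
  · linarith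
  · exact hε.le
  · exact le_rfl

theorem trans_le_one (hd1 : 1 ≤ d) (ω : Env d) (x z : Site d) : trans ε ω x z ≤ 1 := by
  have hd' : (1 : ℝ) ≤ d := by exact_mod_cast hd1
  unfold trans
  split_ifs
  · nlinarith
  · nlinarith
  · exact zero_le_one

theorem le_trans_vec (ω : Env d) (x : Site d) (a : Fin d × Bool) :
    ε ≤ trans ε ω (x + vec a) x := by
  rw [trans_vec]
  split_ifs
  · linarith
  · exact le_rfl

theorem law_nonneg (ω : Env d) (n : ℕ) (x : Site d) : 0 ≤ law ε ω n x := by
  induction n generalizing x with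
  | zero => unfold law; split_ifs <;> norm_num
  | succ n ih =>
    rw [law_succ]
    exact Finset.sum_nonneg fun a _ => mul_nonneg (ih _) (trans_nonneg hε hd _ _ _)

theorem law_le (hd1 : 1 ≤ d) (ω : Env d) (n : ℕ) (x : Site d) :
    law ε ω n x ≤ (Fintype.card (Fin d × Bool) : ℝ) ^ n := by
  induction n generalizing x with
  | zero => unfold law; split_ifs <;> norm_num
  | succ n ih =>
    rw [law_succ]
    calc ∑ a, law ε ω n (x + vec a) * trans ε ω (x + vec a) x
        ≤ ∑ _a : Fin d × Bool, (Fintype.card (Fin d × Bool) : ℝ) ^ n * 1 :=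
          Finset.sum_le_sum fun a _ => mul_le_mul (ih _) (trans_le_one hε hd hd1 _ _ _)
            (trans_nonneg hε hd _ _ _) (by positivity)
      _ = (Fintype.card (Fin d × Bool) : ℝ) ^ (n + 1) := by
          rw [Finset.sum_const, Finset.card_univ, nsmul_eq_mul]; ring

theorem law_integrable (hd1 : 1 ≤ d) [IsFiniteMeasure (envLaw d)] (n : ℕ) (x : Site d) :
    Integrable (fun ω : Env d => law ε ω n x) (envLaw d) := by
  refine Integrable.of_bound (law_measurable n x).aestronglyMeasurable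
    ((Fintype.card (Fin d × Bool) : ℝ) ^ n) (ae_of_all _ fun ω => ?_)
  rw [Real.norm_eq_abs, abs_of_nonneg (law_nonneg hε hd ω n x)]
  exact law_le hε hd hd1 ω n x

/-- a step from a neighbour has probability at least `ε` -/
theorem le_law_succ (ω : Env d) (n : ℕ) (x : Site d) (a : Fin d × Bool) :
    law ε ω n (x + vec a) * ε ≤ law ε ω (n + 1) x := by
  rw [law_succ]
  calc law ε ω n (x + vec a) * ε ≤ law ε ω n (x + vec a) * trans ε ω (x + vec a) x :=
        mul_le_mul_of_nonneg_left (le_trans_vec hε hd _ _ _) (law_nonneg hε hd _ _ _)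
    _ ≤ _ := Finset.single_le_sum
        (f := fun a => law ε ω n (x + vec a) * trans ε ω (x + vec a) x)
        (fun b _ => mul_nonneg (law_nonneg hε hd _ _ _) (trans_nonneg hε hd _ _ _))
        (Finset.mem_univ a)

/-- the opposite arrow -/
def opp (a : Fin d × Bool) : Fin d × Bool := (a.1, !a.2)

omit hε hd in
theorem vec_opp (a : Fin d × Bool) : vec a + vec (opp a) = 0 := by
  obtain ⟨i, b⟩ := a
  funext j
  by_cases hj : j = i
  · subst hj
    cases b <;> simp [vec, opp]
  · simp [vec, opp, Pi.single_eq_of_ne hj]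

theorem law_even (hd1 : 1 ≤ d) (ω : Env d) (m : ℕ) : ε ^ (2 * m) ≤ law ε ω (2 * m) 0 := by
  induction m with
  | zero => simp [law]
  | succ m ih =>
    have a : Fin d × Bool := (⟨0, hd1⟩, true)
    have h1 := le_law_succ hε hd ω (2 * m) (vec a) (opp a)
    rw [vec_opp] at h1
    have h2 := le_law_succ hε hd ω (2 * m + 1) 0 a
    rw [zero_add] at h2
    have e : 2 * (m + 1) = 2 * m + 1 + 1 := by ring
    rw [e]
    calc ε ^ (2 * m + 1 + 1) = ε ^ (2 * m) * ε * ε := by ring
      _ ≤ law ε ω (2 * m) 0 * ε * ε := by gcongr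
      _ ≤ law ε ω (2 * m + 1) (vec a) * ε := by gcongr
      _ ≤ _ := h2

theorem law_odd (hd1 : 1 ≤ d) (ω : Env d) (m : ℕ) (a : Fin d × Bool) :
    ε ^ (2 * m + 1) ≤ law ε ω (2 * m + 1) (vec a) := by
  have h1 := le_law_succ hε hd ω (2 * m) (vec a) (opp a)
  rw [vec_opp] at h1
  calc ε ^ (2 * m + 1) = ε ^ (2 * m) * ε := by ring
    _ ≤ law ε ω (2 * m) 0 * ε := by gcongr; exact law_even hε hd hd1 ω m
    _ ≤ _ := h1

theorem avg_pos (hd1 : 1 ≤ d) [IsProbabilityMeasure (envLaw d)] (n : ℕ) (x : Site d)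
    (h : ∀ ω, ε ^ n ≤ law ε ω n x) : 0 < avg ε n x := by
  unfold avg
  calc (0 : ℝ) < ε ^ n := by positivity
    _ = ∫ _ω, ε ^ n ∂(envLaw d) := by simp
    _ ≤ _ := integral_mono (integrable_const _) (law_integrable hε hd hd1 n x) h

end kernel

section law

variable {d : ℕ}

instance [NeZero d] : IsProbabilityMeasure (envLaw d) := by
  unfold envLaw
  have : IsProbabilityMeasure (uniformOn (Set.univ : Set (Fin d × Bool))) :=
    isProbabilityMeasure_uniformOn Set.finite_univ Set.univ_nonempty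
  infer_instance

/-- the event that the arrows of the neighbours of `0` are given by `g` -/
def patt (g : Fin d × Bool → Fin d × Bool) : Set (Env d) := {ω | ∀ a, ω (vec a) = g a}

theorem patt_prob [NeZero d] (g : Fin d × Bool → Fin d × Bool) :
    envLaw d (patt g) = ((Fintype.card (Fin d × Bool) : ENNReal)⁻¹) ^
      (Fintype.card (Fin d × Bool)) := by
  classical
  have : IsProbabilityMeasure (uniformOn (Set.univ : Set (Fin d × Bool))) :=
    isProbabilityMeasure_uniformOn Set.finite_univ Set.univ_nonempty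
  set T : Site d → Set (Fin d × Bool) := fun y => {b | ∀ a, vec a = y → b = g a} with hT
  have e : patt g = Set.pi (Finset.univ.image (vec : Fin d × Bool → Site d)) T := by
    ext ω
    simp only [patt, Set.mem_ofPred_eq, Set.mem_pi, Finset.coe_image, Finset.coe_univ,
      Set.image_univ, Set.mem_range, forall_exists_index, forall_apply_eq_imp_iff, hT]
    constructor
    · intro h a b hab
      rw [← hab, h b]
    · intro h a
      exact h a a rfl
  rw [e, envLaw, Measure.infinitePi_pi _ (fun i _ => MeasurableSet.of_discrete),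
    Finset.prod_image (fun a _ b _ hab => vec_injective hab)]
  have h1 : ∀ a : Fin d × Bool, (uniformOn (Set.univ : Set (Fin d × Bool))) (T (vec a)) =
      (Fintype.card (Fin d × Bool) : ENNReal)⁻¹ := by
    intro a
    have e2 : T (vec a) = {g a} := by
      ext b
      simp only [hT, Set.mem_ofPred_eq, Set.mem_singleton_iff]
      constructor
      · intro h; exact h a rfl
      · rintro rfl c hc
        rw [vec_injective hc]
    rw [e2, uniformOn_univ, Measure.count_singleton, one_div]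
  rw [Finset.prod_congr rfl fun a _ => h1 a, Finset.prod_const, Finset.card_univ]

end law


section main

variable {d : ℕ} {ε : ℝ}

/-- the bad event at `(n, x)` -/
def bad (ε δ : ℝ) (n : ℕ) (x : Site d) : Set (Env d) :=
  {ω | δ < |law ε ω n x / avg ε n x - 1|}

theorem good_bounds {δ : ℝ} {n : ℕ} {x : Site d} {ω : Env d} (hm : 0 < avg ε n x)
    (h : ω ∉ bad ε δ n x) :
    (1 - δ) * avg ε n x ≤ law ε ω n x ∧ law ε ω n x ≤ (1 + δ) * avg ε n x := by
  simp only [bad, Set.mem_ofPred_eq, not_lt] at h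
  rw [abs_le] at h
  constructor
  · rw [← le_div_iff₀ hm]; linarith [h.1]
  · rw [← div_le_iff₀ hm]; linarith [h.2]

/-- If no arrow pattern around `0` is covered by the bad events at the neighbours of `0` at time `n`
and at `0` at time `n + 1`, then a contradiction arises. -/
theorem contra {δ : ℝ} (hε : 0 < ε) (hd : (2 * (d : ℝ)) * ε < 1) (hd1 : 1 ≤ d) (hδ0 : 0 < δ)
    (hδ1 : δ < 1) (hδ : (1 + δ) ^ 2 * ε < (1 - δ) ^ 2 * (1 - (2 * (d : ℝ) - 1) * ε))
    {n : ℕ} (hn : ∀ a : Fin d × Bool, 0 < avg ε n (vec a)) (hn0 : 0 < avg ε (n + 1) (0 : Site d))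
    {ω ω' : Env d} (hω : ω ∈ patt (fun a => a)) (hω' : ω' ∈ patt (fun a => opp a))
    (h1 : ∀ a, ω ∉ bad ε δ n (vec a)) (h2 : ω ∉ bad ε δ (n + 1) 0)
    (h3 : ∀ a, ω' ∉ bad ε δ n (vec a)) (h4 : ω' ∉ bad ε δ (n + 1) 0) : False := by
  set K : ℝ := 1 - (2 * (d : ℝ) - 1) * ε with hK
  set S : ℝ := ∑ a : Fin d × Bool, avg ε n (vec a) with hS
  set M : ℝ := avg ε (n + 1) (0 : Site d) with hM
  have hKpos : 0 < K := by rw [hK]; linarith
  have hSpos : 0 < S := by
    have : Nonempty (Fin d × Bool) := ⟨(⟨0, hd1⟩, true)⟩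
    exact Finset.sum_pos (fun a _ => hn a) Finset.univ_nonempty
  have e1 : law ε ω (n + 1) 0 = (∑ a, law ε ω n (vec a)) * K := by
    rw [law_succ, Finset.sum_mul]
    refine Finset.sum_congr rfl fun a _ => ?_
    rw [trans_vec, zero_add, if_pos (hω a)]
  have e2 : law ε ω' (n + 1) 0 = (∑ a, law ε ω' n (vec a)) * ε := by
    rw [law_succ, Finset.sum_mul]
    refine Finset.sum_congr rfl fun a _ => ?_
    rw [trans_vec, zero_add, if_neg]
    rw [hω' a]
    intro h
    have := congrArg Prod.snd h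
    simp [opp] at this
  have g1 : (1 - δ) * S ≤ ∑ a, law ε ω n (vec a) := by
    rw [hS, Finset.mul_sum]
    exact Finset.sum_le_sum fun a _ => (good_bounds (hn a) (h1 a)).1
  have g2 : ∑ a, law ε ω' n (vec a) ≤ (1 + δ) * S := by
    rw [hS, Finset.mul_sum]
    exact Finset.sum_le_sum fun a _ => (good_bounds (hn a) (h3 a)).2
  have g3 := (good_bounds hn0 h2).2
  have g4 := (good_bounds hn0 h4).1
  rw [e1] at g3
  rw [e2] at g4
  have k1 : (1 - δ) * S * K ≤ (1 + δ) * M := (mul_le_mul_of_nonneg_right g1 hKpos.le).trans g3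
  have k2 : (1 - δ) * M ≤ (1 + δ) * S * ε := g4.trans (mul_le_mul_of_nonneg_right g2 hε.le)
  have k3 : (1 - δ) * ((1 - δ) * S * K) ≤ (1 + δ) * ((1 + δ) * S * ε) := by
    calc (1 - δ) * ((1 - δ) * S * K) ≤ (1 - δ) * ((1 + δ) * M) :=
          mul_le_mul_of_nonneg_left k1 (by linarith)
      _ = (1 + δ) * ((1 - δ) * M) := by ring
      _ ≤ _ := mul_le_mul_of_nonneg_left k2 (by linarith)
  have k4 : 0 < S * ((1 - δ) ^ 2 * K - (1 + δ) ^ 2 * ε) := mul_pos hSpos (by linarith)
  nlinarith [k3, k4]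

/-- an event of probability larger than the sum of the probabilities of the bad events contains an
environment in none of them -/
theorem exists_good [NeZero d] {δ : ℝ} {n : ℕ} (g : Fin d × Bool → Fin d × Bool) {c : ENNReal}
    (hc : (Fintype.card (Fin d × Bool) + 1 : ℕ) * c < envLaw d (patt g))
    (h1 : ∀ a : Fin d × Bool, envLaw d (bad ε δ n (vec a)) ≤ c)
    (h2 : envLaw d (bad ε δ (n + 1) (0 : Site d)) ≤ c) :
    ∃ ω ∈ patt g, (∀ a, ω ∉ bad ε δ n (vec a)) ∧ ω ∉ bad ε δ (n + 1) (0 : Site d) := by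
  by_contra hcon
  push Not at hcon
  have hsub : patt g ⊆ (⋃ a : Fin d × Bool, bad ε δ n (vec a)) ∪ bad ε δ (n + 1) (0 : Site d) := by
    intro ω hω
    by_cases h : ∀ a, ω ∉ bad ε δ n (vec a)
    · exact Or.inr (hcon ω hω h)
    · push Not at h
      obtain ⟨a, ha⟩ := h
      exact Or.inl (Set.mem_iUnion.2 ⟨a, ha⟩)
  have : envLaw d (patt g) ≤ (Fintype.card (Fin d × Bool) + 1 : ℕ) * c := by
    calc envLaw d (patt g) ≤ _ := measure_mono hsub
      _ ≤ envLaw d (⋃ a : Fin d × Bool, bad ε δ n (vec a))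
          + envLaw d (bad ε δ (n + 1) (0 : Site d)) := measure_union_le _ _
      _ ≤ (∑ a : Fin d × Bool, envLaw d (bad ε δ n (vec a))) + c := by
          gcongr
          exact measure_iUnion_fintype_le _ _
      _ ≤ (∑ _a : Fin d × Bool, c) + c := by
          gcongr with a
          exact h1 a
      _ = (Fintype.card (Fin d × Bool) + 1 : ℕ) * c := by
          rw [Finset.sum_const, Finset.card_univ, nsmul_eq_mul]
          push_cast
          ring
  exact absurd hc (not_lt.2 this)

/-- The ratio condition (ii) fails. -/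
theorem not_ratioLimit (hd1 : 1 ≤ d) (hε : 0 < ε) (hd : (2 * (d : ℝ)) * ε < 1) :
    ¬ RatioLimit d ε := by
  have : NeZero d := ⟨by omega⟩
  intro hR
  set K : ℝ := 1 - (2 * (d : ℝ) - 1) * ε with hK
  have hKε : ε < K := by rw [hK]; linarith
  have hKpos : 0 < K := hε.trans hKε
  set δ : ℝ := (K - ε) / (6 * K) with hδdef
  have hδ0 : 0 < δ := div_pos (by linarith) (by linarith)
  have hδK : δ * (6 * K) = K - ε := by rw [hδdef]; field_simp
  have hδ1 : δ < 1 := by
    rw [hδdef, div_lt_one (by linarith)]; linarith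
  have hδ : (1 + δ) ^ 2 * ε < (1 - δ) ^ 2 * K := by
    nlinarith [mul_pos hδ0 hKpos, mul_pos hδ0 hε, mul_pos (mul_pos hδ0 hδ0) hKpos,
      mul_pos hδ0 (sub_pos.2 hKε), mul_pos (mul_pos hδ0 (sub_pos.2 hδ1)) hε]
  set P : ENNReal := ((Fintype.card (Fin d × Bool) : ENNReal)⁻¹) ^ (Fintype.card (Fin d × Bool))
    with hP
  have hP0 : 0 < P := by
    rw [hP]
    exact ENNReal.pow_pos (ENNReal.inv_pos.2 (ENNReal.natCast_ne_top _)) _
  have hPtop : P ≠ ⊤ := by
    have := prob_le_one (μ := envLaw d) (s := patt (fun a => a))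
    rw [patt_prob] at this
    exact ne_top_of_le_ne_top ENNReal.one_ne_top this
  set c : ENNReal := P / ((Fintype.card (Fin d × Bool) + 2 : ℕ) : ENNReal) with hc
  have hc0 : 0 < c := ENNReal.div_pos hP0.ne' (ENNReal.natCast_ne_top _)
  have hctop : c ≠ ⊤ := ENNReal.div_ne_top hPtop (by simp)
  have hcP : ((Fintype.card (Fin d × Bool) + 1 : ℕ) : ENNReal) * c < P := by
    have e : ((Fintype.card (Fin d × Bool) + 2 : ℕ) : ENNReal) * c = P := by
      rw [hc]; exact ENNReal.mul_div_cancel (by simp) (ENNReal.natCast_ne_top _)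
    calc ((Fintype.card (Fin d × Bool) + 1 : ℕ) : ENNReal) * c
        < ((Fintype.card (Fin d × Bool) + 2 : ℕ) : ENNReal) * c := by
          rw [ENNReal.mul_lt_mul_iff_left hc0.ne' hctop]
          exact_mod_cast Nat.lt_succ_self _
      _ = P := e
  have hlim := hR 1 δ one_pos hδ0
  have hev : ∀ᶠ n : ℕ in atTop, (⨆ x ∈ {x : Site d | Real.sqrt (∑ i, (x i : ℝ) ^ 2) ≤
      1 * Real.sqrt n ∧ 0 < avg ε n x}, envLaw d {ω | δ < |law ε ω n x / avg ε n x - 1|}) < c :=
    hlim.eventually_lt_const hc0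
  obtain ⟨N, hN⟩ := eventually_atTop.1 hev
  -- the odd time `2N + 1`
  have hpos1 : ∀ a : Fin d × Bool, 0 < avg ε (2 * N + 1) (vec a) := fun a =>
    avg_pos hε hd hd1 _ _ fun ω => law_odd hε hd hd1 ω N a
  have hpos2 : 0 < avg ε (2 * N + 1 + 1) (0 : Site d) :=
    avg_pos hε hd hd1 _ _ fun ω => by
      have := law_even hε hd hd1 ω (N + 1)
      have e : 2 * (N + 1) = 2 * N + 1 + 1 := by ring
      rwa [e] at this
  have b1 : ∀ a : Fin d × Bool, envLaw d (bad ε δ (2 * N + 1) (vec a)) ≤ c := by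
    intro a
    refine le_trans ?_ (hN (2 * N + 1) (by omega)).le
    refine le_iSup₂_of_le (vec a) ⟨?_, hpos1 a⟩ le_rfl
    have e : ∑ i, ((vec a i : ℤ) : ℝ) ^ 2 = 1 := by exact_mod_cast sq_vec a
    rw [e, one_mul, Real.sqrt_one, Real.one_le_sqrt]
    exact_mod_cast (by omega : 1 ≤ 2 * N + 1)
  have b2 : envLaw d (bad ε δ (2 * N + 1 + 1) (0 : Site d)) ≤ c := by
    refine le_trans ?_ (hN (2 * N + 1 + 1) (by omega)).le
    refine le_iSup₂_of_le (0 : Site d) ⟨?_, hpos2⟩ le_rfl
    simp
  obtain ⟨ω, hω, g1, g2⟩ := exists_good (fun a : Fin d × Bool => a)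
    (by rw [patt_prob]; exact hcP) b1 b2
  obtain ⟨ω', hω', g3, g4⟩ := exists_good (fun a : Fin d × Bool => opp a)
    (by rw [patt_prob]; exact hcP) b1 b2
  exact contra hε hd hd1 hδ0 hδ1 hδ hpos1 hpos2 hω hω' g1 g2 g3 g4

end main

/-- For every `d ≥ 1` and every `ε ∈ (0, 1/(2d))` condition (ii) fails, so the model does not
homogenize. In particular for `d ≥ 3` there is no `ε₀ > 0` such that the model homogenizes for all
`ε ∈ (0, ε₀)`. -/
theorem result :
    (∀ d : ℕ, 1 ≤ d → ∀ ε : ℝ, 0 < ε → ε < 1 / (2 * (d : ℝ)) →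
      ¬ RatioLimit d ε ∧ ¬ Homogenizes d ε) ∧
    (∀ d : ℕ, 3 ≤ d → ¬ ∃ ε₀ : ℝ, 0 < ε₀ ∧ ∀ ε : ℝ, 0 < ε → ε < 1 / (2 * (d : ℝ)) → ε < ε₀ →
      Homogenizes d ε) := by
  have main : ∀ d : ℕ, 1 ≤ d → ∀ ε : ℝ, 0 < ε → ε < 1 / (2 * (d : ℝ)) → ¬ RatioLimit d ε := by
    intro d hd ε h0 h1
    have hd' : (1 : ℝ) ≤ d := by exact_mod_cast hd
    refine not_ratioLimit hd h0 ?_
    rw [lt_div_iff₀ (by linarith)] at h1
    linarith
  refine ⟨fun d hd ε h0 h1 => ⟨main d hd ε h0 h1, fun h => main d hd ε h0 h1 h.2⟩, ?_⟩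
  rintro d hd ⟨ε₀, h0, h⟩
  have hd' : (3 : ℝ) ≤ d := by exact_mod_cast hd
  have h2 : 0 < 1 / (2 * (d : ℝ)) := by positivity
  have h3 : 0 < min ε₀ (1 / (2 * (d : ℝ))) := lt_min h0 h2
  refine main d (by omega) (min ε₀ (1 / (2 * (d : ℝ))) / 2) (by linarith) ?_ (h _ (by linarith) ?_ ?_).2
  · have := min_le_right ε₀ (1 / (2 * (d : ℝ))); linarith
  · have := min_le_right ε₀ (1 / (2 * (d : ℝ))); linarith
  · have := min_le_left ε₀ (1 / (2 * (d : ℝ))); linarith

end Pool.Agent.Results.MP_31ab2b_pr.LocalFluctuations
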